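import Pool.Agent.Lib.MP_0a5adf_nt.H32.MLate
import Pool.Agent.Lib.MP_0a5adf_nt.TP.Interfaces

/-!
The descent theorem: the number of starting values in a dyadic block whose trajectory does not fall
below `y` before reaching `lam * n`, and the natural density version.
-/

set_option autoImplicit false

namespace Pool.Agent.Lib.MP_0a5adf_nt.H32

open Finset
open H89 (Mh Mh_pos delta_bounds)

/-- The numbers `n` of `[2 ^ L, 2 ^ (L + 1))` whose trajectory does not fall below `y` before reaching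
`lam * n`. -/
def Fail (L : ℕ) (y lam : ℝ) : Set ℕ :=
  {n : ℕ | 2 ^ L ≤ n ∧ n < 2 ^ (L + 1) ∧
    ¬ ∃ k : ℕ, (T^[k] n : ℝ) < y ∧ ∀ j < k, (T^[j] n : ℝ) < lam * n}

theorem Fail_finite (L : ℕ) (y lam : ℝ) : (Fail L y lam).Finite :=
  (Set.finite_Iio (2 ^ (L + 1))).subset (fun _ hn => hn.2.1)

theorem ncard_Fail_le (L : ℕ) (y lam : ℝ) : ((Fail L y lam).ncard : ℝ) ≤ 2 ^ L := by
  classical
  have h1 : Fail L y lam ⊆ (Ico (2 ^ L) (2 ^ (L + 1)) : Finset ℕ) := by
    intro n hn
    rw [mem_coe, mem_Ico]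
    exact ⟨hn.1, hn.2.1⟩
  have h2 := Set.ncard_le_ncard h1 (Finset.finite_toSet _)
  rw [Set.ncard_coe_finset, Nat.card_Ico] at h2
  have h3 : 2 ^ (L + 1) - 2 ^ L = 2 ^ L := by rw [pow_succ]; omega
  rw [h3] at h2
  exact_mod_cast h2

theorem Fail_subset {Q L l : ℕ} {y lam : ℝ} (hlL : l ≤ L) (hly : (2 : ℝ) ^ l ≤ y)
    (hlam : 1 ≤ lam) :
    Fail L y lam ⊆ Reach L lam ∪ ((Exc Q L l : Set ℕ) ∪ (LateF Q L l : Set ℕ)) := by
  classical
  rintro n ⟨h1, h2, h3⟩
  by_cases hG : Good Q L n l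
  · obtain ⟨i, hi, _⟩ := hG.exists_FP h1 h2 (L + 1 - l) l (by omega)
    have h4 : (T^[i] n : ℝ) < y := by
      have : (T^[i] n : ℝ) < 2 ^ l := by exact_mod_cast hi.1
      linarith
    have h5 : ∃ j < i, lam * n ≤ (T^[j] n : ℝ) := by
      by_contra hcon
      push Not at hcon
      exact h3 ⟨i, h4, hcon⟩
    obtain ⟨j, hj, h6⟩ := h5
    rcases Nat.lt_or_ge L j with h7 | h7
    · right; right
      rw [mem_coe]
      refine mem_LateF (k := j) h1 h2 hlL hG h7 ?_ ?_
      · have h8 : (2 : ℝ) ^ L ≤ n := by exact_mod_cast h1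
        have h9 : (2 : ℝ) ^ L ≤ (T^[j] n : ℝ) := by nlinarith
        exact_mod_cast h9
      · intro j' hj'
        exact hi.2 j' (by omega)
    · left
      exact ⟨h1, h2, j, h7, h6⟩
  · right; left
    rw [mem_coe, mem_Exc]
    exact ⟨⟨h1, h2⟩, hG⟩

/-- **The descent theorem.** -/
theorem descent (δ : ℝ) (hδ0 : 0 < δ) (hδ : δ < 3 / 2 - Real.logb 2 (1 + √3)) :
    ∃ C : ℝ, 0 < C ∧ ∀ (L : ℕ) (y lam : ℝ), 1 ≤ L → 1 ≤ y → y ^ 2 ≤ 2 ^ L → 1 ≤ lam →
      ((Fail L y lam).ncard : ℝ) ≤ 2 * 2 ^ L / lam + C * L * 2 ^ L / y ^ δ := by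
  classical
  obtain ⟨Q, C1, hQ, hC1, hE⟩ := exists_Exc_bound hδ hδ0
  obtain ⟨C2, hC2, hLa⟩ := exists_LateF_bound hδ hδ0 hQ
  have hd2 := delta_bounds.2
  refine ⟨2 * (C1 + C2) + 2, by positivity, fun L y lam hL hy hyL hlam => ?_⟩
  · have hLr : (1 : ℝ) ≤ L := by exact_mod_cast hL
    have hypos : 0 < y := by linarith
    have hyδ : 0 < y ^ δ := Real.rpow_pos_of_pos hypos δ
    have h2δ : (2 : ℝ) ^ δ ≤ 2 := by
      calc (2 : ℝ) ^ δ ≤ (2 : ℝ) ^ (1 : ℝ) :=
            Real.rpow_le_rpow_of_exponent_le (by norm_num) (by linarith)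
        _ = 2 := Real.rpow_one 2
    -- the exponent of `y`
    obtain ⟨l, hl1, hl2⟩ := exists_nat_pow_near hy (by norm_num : (1 : ℝ) < 2)
    have hyl : y ^ δ ≤ 2 * (2 : ℝ) ^ (δ * l) := by
      calc y ^ δ ≤ ((2 : ℝ) ^ (l + 1)) ^ δ := Real.rpow_le_rpow hypos.le hl2.le hδ0.le
        _ = (2 : ℝ) ^ δ * (2 : ℝ) ^ (δ * l) := by
            rw [← Real.rpow_natCast, ← Real.rpow_mul (by norm_num), ← Real.rpow_add (by norm_num)]
            congr 1
            push_cast
            ring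
        _ ≤ _ := by
            have : (0 : ℝ) < (2 : ℝ) ^ (δ * l) := by positivity
            nlinarith
    have hinv : (2 : ℝ) ^ (-(δ * l)) ≤ 2 / y ^ δ := by
      rw [Real.rpow_neg (by norm_num), le_div_iff₀ hyδ, inv_mul_le_iff₀ (by positivity)]
      linarith
    rcases Nat.eq_zero_or_pos l with h0 | h0
    · -- trivial case
      have h1 := ncard_Fail_le L y lam
      rw [h0] at hyl
      have h2 : y ^ δ ≤ 2 := by simpa using hyl
      have h3 : (2 : ℝ) ^ L ≤ (2 * (C1 + C2) + 2) * L * 2 ^ L / y ^ δ := by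
        rw [le_div_iff₀ hyδ]
        have h4 : (0 : ℝ) < 2 ^ L := by positivity
        have h5 : y ^ δ ≤ (2 * (C1 + C2) + 2) * L := by nlinarith
        calc (2 : ℝ) ^ L * y ^ δ ≤ 2 ^ L * ((2 * (C1 + C2) + 2) * L) :=
              mul_le_mul_of_nonneg_left h5 h4.le
          _ = _ := by ring
      have h4 : (0 : ℝ) ≤ 2 * 2 ^ L / lam := by positivity
      linarith
    · have hlL : 2 * l ≤ L := by
        have h1 : ((2 : ℝ) ^ l) ^ 2 ≤ 2 ^ L := le_trans (pow_le_pow_left₀ (by positivity) hl1 2) hyL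
        rw [← pow_mul] at h1
        have h2 := (pow_le_pow_iff_right₀ (by norm_num : (1 : ℝ) < 2)).1 h1
        omega
      have hsub := Fail_subset (Q := Q) (show l ≤ L by omega) hl1 hlam
      have h1 : (Fail L y lam).ncard ≤ (Reach L lam).ncard +
          ((Exc Q L l).card + (LateF Q L l).card) := by
        refine (Set.ncard_le_ncard hsub ?_).trans ?_
        · exact (Reach_finite L lam).union ((Finset.finite_toSet _).union (Finset.finite_toSet _))
        · refine (Set.ncard_union_le _ _).trans ?_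
          refine Nat.add_le_add_left ?_ _
          refine (Set.ncard_union_le _ _).trans ?_
          rw [Set.ncard_coe_finset, Set.ncard_coe_finset]
      have h2 : ((Fail L y lam).ncard : ℝ) ≤ ((Reach L lam).ncard : ℝ) +
          (((Exc Q L l).card : ℝ) + ((LateF Q L l).card : ℝ)) := by exact_mod_cast h1
      have h3 := reach_upper L lam (by linarith)
      have h4 := hE L l hL h0
      have h5 := hLa L l hL h0 hlL
      have h6 : (C1 + C2) * L * 2 ^ L * (2 : ℝ) ^ (-(δ * l)) ≤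
          (C1 + C2) * L * 2 ^ L * (2 / y ^ δ) :=
        mul_le_mul_of_nonneg_left hinv (by positivity)
      have h7 : (C1 + C2) * L * 2 ^ L * (2 / y ^ δ) ≤
          (2 * (C1 + C2) + 2) * L * 2 ^ L / y ^ δ := by
        have e1 : (C1 + C2) * L * 2 ^ L * (2 / y ^ δ) = 2 * (C1 + C2) * L * 2 ^ L / y ^ δ := by
          ring
        rw [e1]
        gcongr
        linarith
      have h8 : C1 * L * 2 ^ L * (2 : ℝ) ^ (-(δ * l)) + C2 * L * 2 ^ L * (2 : ℝ) ^ (-(δ * l)) =
          (C1 + C2) * L * 2 ^ L * (2 : ℝ) ^ (-(δ * l)) := by ring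
      linarith

theorem T_eq : TP.T false = T := by
  funext n
  unfold TP.T T
  simp

/-- DESCM: the descent theorem for the 3x-1 map. -/
theorem descM : TP.DescStatement false := by
  have hd := delta_bounds
  constructor
  · intro L lam hlam
    have h1 := reach_upper L lam (by linarith)
    have h2 : TP.Reach false L lam = Reach L lam := by
      unfold TP.Reach Reach
      rw [T_eq]
    rw [h2]
    exact h1
  · obtain ⟨C, hC, h⟩ := descent (1 / 64) (by norm_num) (by linarith)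
    refine ⟨1 / 64, C, by norm_num, by norm_num, hC, fun L y lam hL hy hyL hlam => ?_⟩
    have h2 : TP.Fail false L y lam = Fail L y lam := by
      unfold TP.Fail Fail
      rw [T_eq]
    rw [h2]
    exact h L y lam hL hy hyL hlam

end Pool.Agent.Lib.MP_0a5adf_nt.H32
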