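import Pool.Agent.Lib.MP_0a5adf_nt.H32.MLevels

/-!
Counting the starting values whose first passage points are exceptional.
-/

set_option autoImplicit false

namespace Pool.Agent.Lib.MP_0a5adf_nt.H32

open Finset
open H89 (sig sig_nonneg sig_rec sig_le_half Mh Mh_pos two_rpow_mul_Mh_lt exists_Q exists_sum_le)

open scoped Classical in
/-- The starting values whose first passage below `2 ^ (b + 1)` is in `G`, with the usual descent
before. -/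
noncomputable def Thr (Q L b : ℕ) (G : Finset ℕ) : Finset ℕ :=
  (Ico (2 ^ L) (2 ^ (L + 1))).filter fun n =>
    Good Q L n (b + 1) ∧ ∃ i, FP n (b + 1) i ∧ T^[i] n ∈ G

open scoped Classical in
theorem mem_Thr {Q L b n : ℕ} {G : Finset ℕ} : n ∈ Thr Q L b G ↔
    (2 ^ L ≤ n ∧ n < 2 ^ (L + 1)) ∧ Good Q L n (b + 1) ∧ ∃ i, FP n (b + 1) i ∧ T^[i] n ∈ G := by
  unfold Thr
  rw [mem_filter, mem_Ico]

/-- **The law of the first passage point is spread out.** -/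
theorem card_Thr_le {Q L b : ℕ} (hQ : 0 < Q) (hb1 : 1 ≤ b) (hbL : b ≤ L) (G : Finset ℕ) :
    ((Thr Q L b G).card : ℝ) ≤
      (((Q : ℝ) + 2) * L + 1) * (4 * ((b : ℝ) + 2) * (2 ^ L / 2 ^ b)) * G.card := by
  classical
  have hsub : Thr Q L b G ⊆ (range ((Q + 2) * L + 1)).biUnion fun i =>
      G.biUnion fun m => Fib L i m (sig (b + 1)) := by
    intro n hn
    rw [mem_Thr] at hn
    obtain ⟨⟨h1, h2⟩, h3, i, h4, h5⟩ := hn
    have h6 := h3.time_le hQ h1 h2 (by omega) h4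
    have h7 := h3.FP_sig h1 h2 (by omega) h4
    rw [mem_biUnion]
    refine ⟨i, mem_range.2 (by omega), ?_⟩
    rw [mem_biUnion]
    refine ⟨T^[i] n, h5, ?_⟩
    rw [mem_Fib]
    exact ⟨⟨h1, h2⟩, rfl, h7⟩
  set F : ℝ := 4 * ((b : ℝ) + 2) * (2 ^ L / 2 ^ b) with hF
  have hF0 : 0 ≤ F := by positivity
  have hfib : ∀ i m, ((Fib L i m (sig (b + 1))).card : ℝ) ≤ F := by
    intro i m
    refine (card_Fib_le L i m (sig (b + 1)) (sig_nonneg _) (sig_le_half (by omega))).trans ?_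
    have h1 : (2 : ℝ) ^ (L + 2) * sig (b + 1) = 4 / 3 * ((b : ℝ) + 2) * (2 ^ L / 2 ^ b) := by
      unfold H89.sig
      push_cast
      rw [pow_succ 2 b, pow_add]
      field_simp
      ring
    have h2 : (1 : ℝ) ≤ 2 ^ L / 2 ^ b := by
      rw [one_le_div (by positivity)]
      exact pow_le_pow_right₀ (by norm_num) hbL
    have hb0 : (0 : ℝ) ≤ b := Nat.cast_nonneg b
    rw [h1, hF]
    nlinarith
  have h1 : (Thr Q L b G).card ≤ ∑ i ∈ range ((Q + 2) * L + 1), ∑ m ∈ G,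
      (Fib L i m (sig (b + 1))).card :=
    (card_le_card hsub).trans (card_biUnion_le.trans (sum_le_sum fun i _ => card_biUnion_le))
  have h2 : ((Thr Q L b G).card : ℝ) ≤ ∑ _i ∈ range ((Q + 2) * L + 1), ∑ _m ∈ G, F := by
    have h3 : ((Thr Q L b G).card : ℝ) ≤ ∑ i ∈ range ((Q + 2) * L + 1), ∑ m ∈ G,
        ((Fib L i m (sig (b + 1))).card : ℝ) := by exact_mod_cast h1
    exact h3.trans (sum_le_sum fun i _ => sum_le_sum fun m _ => hfib i m)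
  refine h2.trans (le_of_eq ?_)
  simp only [sum_const, card_range, nsmul_eq_mul]
  push_cast
  ring

open scoped Classical in
/-- The starting values with an exceptional first passage above `2 ^ l`. -/
noncomputable def Exc (Q L l : ℕ) : Finset ℕ :=
  (Ico (2 ^ L) (2 ^ (L + 1))).filter fun n => ¬ Good Q L n l

open scoped Classical in
theorem mem_Exc {Q L l n : ℕ} : n ∈ Exc Q L l ↔
    (2 ^ L ≤ n ∧ n < 2 ^ (L + 1)) ∧ ¬ Good Q L n l := by
  unfold Exc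
  rw [mem_filter, mem_Ico]

theorem card_Exc_le {Q L l : ℕ} (hQ : 0 < Q) (hl : 1 ≤ l) :
    ((Exc Q L l).card : ℝ) ≤ 8 * (((Q : ℝ) + 2) * L + 1) * 2 ^ L *
      ∑ b ∈ Icc l L, ((b : ℝ) + 2) * ((2 : ℝ) ^ (1 / (2 * Q) : ℝ) * Mh / 2) ^ b := by
  classical
  have hsub : Exc Q L l ⊆ (Icc l L).biUnion fun b => Thr Q L b (Bad Q b) := by
    intro n hn
    rw [mem_Exc] at hn
    obtain ⟨⟨h1, h2⟩, h3⟩ := hn
    unfold Good at h3
    push Not at h3
    obtain ⟨b0, i0, hb1, hb2, hb3, hb4⟩ := h3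
    -- the largest exceptional level
    set S : Finset ℕ := (Icc l L).filter fun b => ∃ i, FP n (b + 1) i ∧ T^[i] n ∈ Bad Q b with hS
    have hne : S.Nonempty := ⟨b0, by
      rw [hS, mem_filter, mem_Icc]
      exact ⟨⟨hb1, hb2⟩, i0, hb3, hb4⟩⟩
    set b := S.max' hne with hb
    have hbS : b ∈ S := S.max'_mem hne
    rw [hS, mem_filter, mem_Icc] at hbS
    rw [mem_biUnion]
    refine ⟨b, mem_Icc.2 hbS.1, ?_⟩
    rw [mem_Thr]
    refine ⟨⟨h1, h2⟩, ?_, hbS.2⟩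
    intro b' i' h4 h5 h6 h7
    have h8 : b' ∈ S := by
      rw [hS, mem_filter, mem_Icc]
      exact ⟨⟨by omega, h5⟩, i', h6, h7⟩
    have h9 : b' ≤ b := S.le_max' b' h8
    omega
  have h1 : ((Exc Q L l).card : ℝ) ≤ ∑ b ∈ Icc l L, ((Thr Q L b (Bad Q b)).card : ℝ) := by
    exact_mod_cast (card_le_card hsub).trans card_biUnion_le
  refine h1.trans ?_
  rw [mul_sum]
  refine sum_le_sum fun b hb => ?_
  rw [mem_Icc] at hb
  refine (card_Thr_le hQ (by omega) hb.2 _).trans ?_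
  have h2 := card_Bad_le hQ b
  have h3 : (0 : ℝ) ≤ (((Q : ℝ) + 2) * L + 1) * (4 * ((b : ℝ) + 2) * (2 ^ L / 2 ^ b)) := by
    positivity
  refine (mul_le_mul_of_nonneg_left h2 h3).trans (le_of_eq ?_)
  rw [div_pow]
  field_simp
  ring

/-- **Power saving for the exceptional set.** -/
theorem exists_Exc_bound {δ : ℝ} (hδ : δ < 3 / 2 - Real.logb 2 (1 + √3)) (hδ0 : 0 < δ) :
    ∃ (Q : ℕ) (C : ℝ), 0 < Q ∧ 0 < C ∧ ∀ L l : ℕ, 1 ≤ L → 1 ≤ l →
      ((Exc Q L l).card : ℝ) ≤ C * L * 2 ^ L * (2 : ℝ) ^ (-(δ * l)) := by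
  obtain ⟨Q, hQ, hr⟩ := exists_Q hδ
  set r := (2 : ℝ) ^ (1 / (2 * Q) : ℝ) * Mh * 2 ^ δ / 2 with hrdef
  have hr0 : 0 ≤ r := by rw [hrdef]; have := Mh_pos; positivity
  obtain ⟨K, hK, hKs⟩ := exists_sum_le hr0 hr
  refine ⟨Q, 8 * ((Q : ℝ) + 3) * K, hQ, by positivity, fun L l hL hl => ?_⟩
  refine (card_Exc_le hQ hl).trans ?_
  have h1 : ∑ b ∈ Icc l L, ((b : ℝ) + 2) * ((2 : ℝ) ^ (1 / (2 * Q) : ℝ) * Mh / 2) ^ b ≤
      (2 : ℝ) ^ (-(δ * l)) * K := by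
    calc ∑ b ∈ Icc l L, ((b : ℝ) + 2) * ((2 : ℝ) ^ (1 / (2 * Q) : ℝ) * Mh / 2) ^ b
        ≤ ∑ b ∈ Icc l L, (2 : ℝ) ^ (-(δ * l)) * (((b : ℝ) + 2) * r ^ b) := by
          refine sum_le_sum fun b hb => ?_
          rw [mem_Icc] at hb
          have h2 : ((2 : ℝ) ^ (1 / (2 * Q) : ℝ) * Mh / 2) = r * (2 : ℝ) ^ (-δ) := by
            rw [hrdef, Real.rpow_neg (by norm_num)]
            field_simp
          rw [h2, mul_pow, ← Real.rpow_natCast ((2 : ℝ) ^ (-δ)) b, ← Real.rpow_mul (by norm_num)]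
          have h3 : (2 : ℝ) ^ (-δ * (b : ℝ)) ≤ (2 : ℝ) ^ (-(δ * l)) := by
            apply Real.rpow_le_rpow_of_exponent_le (by norm_num)
            have : (l : ℝ) ≤ b := by exact_mod_cast hb.1
            nlinarith
          have h4 : (0 : ℝ) ≤ ((b : ℝ) + 2) * r ^ b := by positivity
          have h5 := mul_le_mul_of_nonneg_right h3 h4
          calc ((b : ℝ) + 2) * (r ^ b * (2 : ℝ) ^ (-δ * (b : ℝ)))
              = (2 : ℝ) ^ (-δ * (b : ℝ)) * (((b : ℝ) + 2) * r ^ b) := by ring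
            _ ≤ _ := h5
      _ = (2 : ℝ) ^ (-(δ * l)) * ∑ b ∈ Icc l L, (((b : ℝ) + 2) * r ^ b) := by rw [mul_sum]
      _ ≤ _ := mul_le_mul_of_nonneg_left (hKs _) (by positivity)
  have hLr : (1 : ℝ) ≤ L := by exact_mod_cast hL
  have h2 : ((Q : ℝ) + 2) * L + 1 ≤ ((Q : ℝ) + 3) * L := by nlinarith
  have h3 : (0 : ℝ) ≤ (2 : ℝ) ^ (-(δ * l)) * K := by positivity
  calc 8 * (((Q : ℝ) + 2) * L + 1) * 2 ^ L *
      ∑ b ∈ Icc l L, ((b : ℝ) + 2) * ((2 : ℝ) ^ (1 / (2 * Q) : ℝ) * Mh / 2) ^ b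
      ≤ 8 * (((Q : ℝ) + 2) * L + 1) * 2 ^ L * ((2 : ℝ) ^ (-(δ * l)) * K) :=
        mul_le_mul_of_nonneg_left h1 (by positivity)
    _ ≤ 8 * (((Q : ℝ) + 3) * L) * 2 ^ L * ((2 : ℝ) ^ (-(δ * l)) * K) := by
        gcongr
    _ = _ := by ring

end Pool.Agent.Lib.MP_0a5adf_nt.H32
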