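import Pool.Agent.Lib.MP_0a5adf_nt.H32.MCount

/-!
Large values of the trajectory of `n < 2 ^ (L + 1)` after more than `L` steps are rare.
-/

set_option autoImplicit false

namespace Pool.Agent.Lib.MP_0a5adf_nt.H32

open Finset
open H89 (Mh Mh_pos two_rpow_mul_Mh_lt exists_Q exists_sum_le delta_bounds)

open scoped Classical in
/-- The numbers of the dyadic block `[2 ^ b, 2 ^ (b + 1))` which climb by the factor
`2 ^ (L - b - 1)` within `b` steps. -/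
noncomputable def RG (L b : ℕ) : Finset ℕ :=
  (Ico (2 ^ b) (2 ^ (b + 1))).filter fun m => ∃ k ≤ b, (2 : ℝ) ^ (L - b - 1) * m ≤ (T^[k] m : ℝ)

theorem card_RG_le {L b : ℕ} (hb : b < L) : ((RG L b).card : ℝ) ≤ 4 * (2 ^ b / 2 ^ L) * 2 ^ b := by
  classical
  have h1 := reach_upper b ((2 : ℝ) ^ (L - b - 1)) (by positivity)
  have h2 : Reach b ((2 : ℝ) ^ (L - b - 1)) = (RG L b : Set ℕ) := by
    ext m
    unfold RG Reach
    rw [coe_filter]
    simp only [mem_Ico, Set.mem_ofPred_eq]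
    tauto
  rw [h2, Set.ncard_coe_finset] at h1
  refine h1.trans (le_of_eq ?_)
  have h3 : (2 : ℝ) ^ L = 2 ^ (L - b - 1) * 2 ^ b * 2 := by
    rw [← pow_add, ← pow_succ]
    congr 1
    omega
  rw [h3]
  have h4 : (0 : ℝ) < 2 ^ (L - b - 1) := by positivity
  field_simp
  ring

open scoped Classical in
/-- The starting values with a large value after time `L`. -/
noncomputable def LateF (Q L l : ℕ) : Finset ℕ :=
  ((Ico l (L - L / 32)).biUnion fun b => Thr Q L b (RG L b)) ∪ Bad 32 L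

open scoped Classical in
theorem mem_LateF {Q L l n k : ℕ} (hn : 2 ^ L ≤ n) (hn' : n < 2 ^ (L + 1)) (hl : l ≤ L)
    (hG : Good Q L n l) (hk : L < k) (h1 : 2 ^ L ≤ T^[k] n) (h2 : ∀ j ≤ k, 2 ^ l ≤ T^[j] n) :
    n ∈ LateF Q L l := by
  obtain ⟨il, hil, _⟩ := hG.exists_FP hn hn' (L + 1 - l) l (by omega)
  have hkl : k < il := by
    by_contra hcon
    push Not at hcon
    have := h2 il hcon
    have := hil.1
    omega
  set S : Finset ℕ := (Icc l L).filter fun b => ∃ i, FP n b i ∧ k < i with hS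
  have hne : S.Nonempty := ⟨l, by
    rw [hS, mem_filter, mem_Icc]
    exact ⟨⟨le_rfl, hl⟩, il, hil, hkl⟩⟩
  set b := S.max' hne with hb
  have hbS : b ∈ S := S.max'_mem hne
  rw [hS, mem_filter, mem_Icc] at hbS
  obtain ⟨⟨hb1, hb2⟩, ib, hib, hkb⟩ := hbS
  obtain ⟨i', hi', _⟩ := (hG.mono (show l ≤ b + 1 by omega)).exists_FP hn hn' (L - b) (b + 1)
    (by omega)
  have hik : i' ≤ k := by
    rcases Nat.lt_or_ge b L with h | h
    · by_contra hcon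
      push Not at hcon
      have h3 : b + 1 ∈ S := by
        rw [hS, mem_filter, mem_Icc]
        exact ⟨⟨by omega, h⟩, i', hi', hcon⟩
      have := S.le_max' (b + 1) h3
      omega
    · have h3 : b = L := by omega
      have h4 : i' ≤ 0 := hi'.le_of_lt (j := 0) (by rw [h3]; exact hn')
      omega
  have h3 := hG.drop hn hb1 hb2 hi'
  have h4 : T^[i' + b] n < 2 ^ b :=
    lt_of_lt_of_le h3 (Nat.pow_le_pow_right (by norm_num) (Nat.sub_le _ _))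
  have h5 : ib ≤ i' + b := hib.le_of_lt h4
  have hbL : b < L := by
    by_contra hcon
    have h6 : b = L := by omega
    have h7 : i' ≤ 0 := hi'.le_of_lt (j := 0) (by rw [h6]; exact hn')
    omega
  unfold LateF
  rw [mem_union]
  rcases Nat.lt_or_ge b (L - L / 32) with h6 | h6
  · left
    rw [mem_biUnion]
    refine ⟨b, mem_Ico.2 ⟨hb1, h6⟩, ?_⟩
    rw [mem_Thr]
    refine ⟨⟨hn, hn'⟩, hG.mono (by omega), i', hi', ?_⟩
    unfold RG
    rw [mem_filter, mem_Ico]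
    refine ⟨⟨hi'.block hn hb2, hi'.1⟩, k - i', by omega, ?_⟩
    rw [← Function.iterate_add_apply, Nat.sub_add_cancel hik]
    have h7 : (T^[i'] n : ℝ) ≤ 2 ^ (b + 1) := by exact_mod_cast hi'.1.le
    have h8 : (2 : ℝ) ^ L ≤ (T^[k] n : ℝ) := by exact_mod_cast h1
    have h9 : (2 : ℝ) ^ L = 2 ^ (L - b - 1) * 2 ^ (b + 1) := by
      rw [← pow_add]
      congr 1
      omega
    calc (2 : ℝ) ^ (L - b - 1) * (T^[i'] n : ℝ) ≤ 2 ^ (L - b - 1) * 2 ^ (b + 1) := by gcongr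
      _ ≤ _ := by rw [← h9]; exact h8
  · right
    rw [mem_Bad]
    refine ⟨⟨hn, hn'⟩, ?_⟩
    have h7 : 2 ^ b ≤ T^[L] n := hib.2 L (by omega)
    exact le_trans (Nat.pow_le_pow_right (by norm_num) h6) h7

theorem card_LateF_le {Q L l : ℕ} (hQ : 0 < Q) (hl : 1 ≤ l) :
    ((LateF Q L l).card : ℝ) ≤ 16 * (((Q : ℝ) + 2) * L + 1) * ((L : ℝ) + 2) * 2 ^ (L - L / 32) +
      2 * ((2 : ℝ) ^ (1 / 64 : ℝ) * Mh) ^ L := by
  classical
  have h1 : ((LateF Q L l).card : ℝ) ≤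
      ∑ b ∈ Ico l (L - L / 32), ((Thr Q L b (RG L b)).card : ℝ) + (Bad 32 L).card := by
    have h2 : (LateF Q L l).card ≤
        ∑ b ∈ Ico l (L - L / 32), (Thr Q L b (RG L b)).card + (Bad 32 L).card := by
      unfold LateF
      refine (card_union_le _ _).trans ?_
      exact Nat.add_le_add_right card_biUnion_le _
    exact_mod_cast h2
  refine h1.trans (add_le_add ?_ ?_)
  · have h2 : ∀ b ∈ Ico l (L - L / 32), ((Thr Q L b (RG L b)).card : ℝ) ≤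
        16 * (((Q : ℝ) + 2) * L + 1) * ((L : ℝ) + 2) * 2 ^ b := by
      intro b hb
      rw [mem_Ico] at hb
      have hbL : b < L := by omega
      refine (card_Thr_le hQ (by omega) hbL.le _).trans ?_
      have h3 := card_RG_le hbL
      have h4 : (0 : ℝ) ≤ (((Q : ℝ) + 2) * L + 1) * (4 * ((b : ℝ) + 2) * (2 ^ L / 2 ^ b)) := by
        positivity
      refine (mul_le_mul_of_nonneg_left h3 h4).trans ?_
      have h5 : (b : ℝ) ≤ L := by exact_mod_cast hbL.le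
      have h6 : (((Q : ℝ) + 2) * L + 1) * (4 * ((b : ℝ) + 2) * (2 ^ L / 2 ^ b)) *
          (4 * (2 ^ b / 2 ^ L) * 2 ^ b) = 16 * (((Q : ℝ) + 2) * L + 1) * ((b : ℝ) + 2) * 2 ^ b := by
        field_simp
        ring
      rw [h6]
      gcongr
    refine (sum_le_sum h2).trans ?_
    rw [← mul_sum]
    have h3 : ∑ b ∈ Ico l (L - L / 32), (2 : ℝ) ^ b ≤ 2 ^ (L - L / 32) := by
      calc ∑ b ∈ Ico l (L - L / 32), (2 : ℝ) ^ b ≤ ∑ b ∈ range (L - L / 32), (2 : ℝ) ^ b := by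
            refine sum_le_sum_of_subset_of_nonneg ?_ (fun _ _ _ => by positivity)
            intro b hb
            rw [mem_Ico] at hb
            exact mem_range.2 hb.2
        _ = 2 ^ (L - L / 32) - 1 := by
            rw [geom_sum_eq (by norm_num)]
            norm_num
        _ ≤ _ := by linarith
    exact mul_le_mul_of_nonneg_left h3 (by positivity)
  · have h2 := card_Bad_le (Q := 32) (by norm_num) L
    refine h2.trans (le_of_eq ?_)
    norm_num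

/-- **Large values after time `L` are rare.** -/
theorem exists_LateF_bound {δ : ℝ} (hδ : δ < 3 / 2 - Real.logb 2 (1 + √3)) (hδ0 : 0 < δ) {Q : ℕ}
    (hQ : 0 < Q) : ∃ C : ℝ, 0 < C ∧ ∀ L l : ℕ, 1 ≤ L → 1 ≤ l → 2 * l ≤ L →
      ((LateF Q L l).card : ℝ) ≤ C * L * 2 ^ L * (2 : ℝ) ^ (-(δ * l)) := by
  obtain ⟨hd1, hd2⟩ := delta_bounds
  -- first part
  set r1 : ℝ := (2 : ℝ) ^ (δ / 2 - 1 / 32) with hr1
  have hr1lt : r1 < 1 := by
    rw [hr1]
    apply Real.rpow_lt_one_of_one_lt_of_neg (by norm_num)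
    linarith
  have hr1pos : 0 < r1 := by rw [hr1]; positivity
  obtain ⟨K, hK, hKs⟩ := exists_sum_le hr1pos.le hr1lt
  have hr2 : (2 : ℝ) ^ (1 / 64 + δ / 2) * Mh < 2 := by
    apply two_rpow_mul_Mh_lt
    linarith
  refine ⟨32 * ((Q : ℝ) + 3) * K + 2, by positivity, fun L l hL hl hlL => ?_⟩
  refine (card_LateF_le hQ hl).trans ?_
  have hLr : (1 : ℝ) ≤ L := by exact_mod_cast hL
  have hdl : (2 : ℝ) ^ (-(δ / 2 * L)) ≤ (2 : ℝ) ^ (-(δ * l)) := by
    apply Real.rpow_le_rpow_of_exponent_le (by norm_num)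
    have : (2 : ℝ) * l ≤ L := by exact_mod_cast hlL
    nlinarith
  have h2L : (0 : ℝ) < 2 ^ L := by positivity
  -- first term
  have ht1 : 16 * (((Q : ℝ) + 2) * L + 1) * ((L : ℝ) + 2) * 2 ^ (L - L / 32) ≤
      32 * ((Q : ℝ) + 3) * K * L * 2 ^ L * (2 : ℝ) ^ (-(δ * l)) := by
    have h1 : (2 : ℝ) ^ (L - L / 32) ≤ 2 * (2 ^ L * (2 : ℝ) ^ (-((1 : ℝ) / 32 * L))) := by
      rw [← Real.rpow_natCast 2 (L - L / 32), ← Real.rpow_natCast 2 L,
        ← Real.rpow_add (by norm_num)]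
      nth_rewrite 2 [show (2 : ℝ) = 2 ^ (1 : ℝ) by norm_num]
      rw [← Real.rpow_add (by norm_num)]
      apply Real.rpow_le_rpow_of_exponent_le (by norm_num)
      have h2 : L ≤ 32 * (L / 32) + 31 := by omega
      have h3 : (L : ℝ) ≤ 32 * ((L / 32 : ℕ) : ℝ) + 31 := by exact_mod_cast h2
      rw [Nat.cast_sub (Nat.div_le_self _ _)]
      linarith
    have h2 : ((L : ℝ) + 2) * (2 : ℝ) ^ (-((1 : ℝ) / 32 * L)) ≤ K * (2 : ℝ) ^ (-(δ / 2 * L)) := by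
      have h3 := hKs {L}
      rw [sum_singleton] at h3
      have h4 : r1 ^ L = (2 : ℝ) ^ (-((1 : ℝ) / 32 * L)) * (2 : ℝ) ^ (δ / 2 * L) := by
        rw [hr1, ← Real.rpow_natCast, ← Real.rpow_mul (by norm_num), ← Real.rpow_add (by norm_num)]
        congr 1
        ring
      rw [h4] at h3
      have h5 : (2 : ℝ) ^ (δ / 2 * L) * (2 : ℝ) ^ (-(δ / 2 * L)) = 1 := by
        rw [← Real.rpow_add (by norm_num)]
        norm_num
      have h6 : (0 : ℝ) < (2 : ℝ) ^ (-(δ / 2 * L)) := by positivity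
      calc ((L : ℝ) + 2) * (2 : ℝ) ^ (-((1 : ℝ) / 32 * L))
          = ((L : ℝ) + 2) * ((2 : ℝ) ^ (-((1 : ℝ) / 32 * L)) * (2 : ℝ) ^ (δ / 2 * L)) *
              (2 : ℝ) ^ (-(δ / 2 * L)) := by
            calc _ = ((L : ℝ) + 2) * (2 : ℝ) ^ (-((1 : ℝ) / 32 * L)) * 1 := by ring
              _ = _ := by rw [← h5]; ring
        _ ≤ K * (2 : ℝ) ^ (-(δ / 2 * L)) := mul_le_mul_of_nonneg_right h3 h6.le
    have h3 : ((Q : ℝ) + 2) * L + 1 ≤ ((Q : ℝ) + 3) * L := by nlinarith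
    calc 16 * (((Q : ℝ) + 2) * L + 1) * ((L : ℝ) + 2) * 2 ^ (L - L / 32)
        ≤ 16 * (((Q : ℝ) + 3) * L) * ((L : ℝ) + 2) *
            (2 * (2 ^ L * (2 : ℝ) ^ (-((1 : ℝ) / 32 * L)))) := by gcongr
      _ = 32 * (((Q : ℝ) + 3) * L) * 2 ^ L *
            (((L : ℝ) + 2) * (2 : ℝ) ^ (-((1 : ℝ) / 32 * L))) := by ring
      _ ≤ 32 * (((Q : ℝ) + 3) * L) * 2 ^ L * (K * (2 : ℝ) ^ (-(δ / 2 * L))) :=
          mul_le_mul_of_nonneg_left h2 (by positivity)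
      _ ≤ 32 * (((Q : ℝ) + 3) * L) * 2 ^ L * (K * (2 : ℝ) ^ (-(δ * l))) := by gcongr
      _ = _ := by ring
  have ht2 : 2 * ((2 : ℝ) ^ (1 / 64 : ℝ) * Mh) ^ L ≤ 2 * L * 2 ^ L * (2 : ℝ) ^ (-(δ * l)) := by
    have h1 : ((2 : ℝ) ^ (1 / 64 : ℝ) * Mh) ^ L ≤ 2 ^ L * (2 : ℝ) ^ (-(δ / 2 * L)) := by
      have h2 : (2 : ℝ) ^ (1 / 64 : ℝ) * Mh ≤ 2 * (2 : ℝ) ^ (-(δ / 2)) := by
        rw [Real.rpow_add (by norm_num)] at hr2
        have h3 : (2 : ℝ) ^ (δ / 2) * (2 : ℝ) ^ (-(δ / 2)) = 1 := by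
          rw [← Real.rpow_add (by norm_num)]
          norm_num
        have h4 : (0 : ℝ) < (2 : ℝ) ^ (-(δ / 2)) := by positivity
        calc (2 : ℝ) ^ (1 / 64 : ℝ) * Mh
            = (2 : ℝ) ^ (1 / 64 : ℝ) * (2 : ℝ) ^ (δ / 2) * Mh * (2 : ℝ) ^ (-(δ / 2)) := by
              calc _ = (2 : ℝ) ^ (1 / 64 : ℝ) * Mh * 1 := by ring
                _ = _ := by rw [← h3]; ring
          _ ≤ 2 * (2 : ℝ) ^ (-(δ / 2)) := mul_le_mul_of_nonneg_right hr2.le h4.le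
      calc ((2 : ℝ) ^ (1 / 64 : ℝ) * Mh) ^ L ≤ (2 * (2 : ℝ) ^ (-(δ / 2))) ^ L := by
            apply pow_le_pow_left₀ _ h2
            have := Mh_pos
            positivity
        _ = _ := by
            rw [mul_pow, ← Real.rpow_natCast ((2 : ℝ) ^ (-(δ / 2))) L,
              ← Real.rpow_mul (by norm_num)]
            congr 2
            ring
    have h2 : (0 : ℝ) ≤ 2 ^ L * (2 : ℝ) ^ (-(δ * l)) := by positivity
    calc 2 * ((2 : ℝ) ^ (1 / 64 : ℝ) * Mh) ^ L ≤ 2 * (2 ^ L * (2 : ℝ) ^ (-(δ / 2 * L))) := by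
          linarith
      _ ≤ 2 * (2 ^ L * (2 : ℝ) ^ (-(δ * l))) := by gcongr
      _ ≤ 2 * (L * (2 ^ L * (2 : ℝ) ^ (-(δ * l)))) := by nlinarith
      _ = _ := by ring
  calc _ ≤ 32 * ((Q : ℝ) + 3) * K * L * 2 ^ L * (2 : ℝ) ^ (-(δ * l)) +
        2 * L * 2 ^ L * (2 : ℝ) ^ (-(δ * l)) := add_le_add ht1 ht2
    _ = _ := by ring

end Pool.Agent.Lib.MP_0a5adf_nt.H32
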