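import Pool.Agent.Lib.MP_0a5adf_nt.H32.MFiber

/-!
First passages below the powers of two, and the trajectories which descend at the usual rate from
every first passage above a given level.
-/

set_option autoImplicit false

namespace Pool.Agent.Lib.MP_0a5adf_nt.H32

open Finset
open H89 (sig sig_nonneg sig_rec sig_le_half Mh Mh_pos)

/-- The trajectory of `n` is below `2 ^ l` for the first time at time `i`. -/
def FP (n l i : ℕ) : Prop := T^[i] n < 2 ^ l ∧ ∀ j < i, 2 ^ l ≤ T^[j] n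

theorem FP_of_lt {n l j : ℕ} (h : T^[j] n < 2 ^ l) : ∃ i ≤ j, FP n l i := by
  classical
  have hex : ∃ i, T^[i] n < 2 ^ l := ⟨j, h⟩
  refine ⟨Nat.find hex, Nat.find_min' hex h, Nat.find_spec hex, fun i hi => ?_⟩
  have := Nat.find_min hex hi
  omega

theorem FP.le_of_lt {n l i j : ℕ} (h : FP n l i) (hj : T^[j] n < 2 ^ l) : i ≤ j := by
  by_contra hcon
  push Not at hcon
  have := h.2 j hcon
  omega

theorem FP.unique {n l i j : ℕ} (h : FP n l i) (h' : FP n l j) : i = j :=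
  le_antisymm (h.le_of_lt h'.1) (h'.le_of_lt h.1)

theorem FP.mono {n l l' i j : ℕ} (h : FP n l i) (h' : FP n l' j) (hl : l ≤ l') : j ≤ i :=
  h'.le_of_lt (lt_of_lt_of_le h.1 (Nat.pow_le_pow_right (by norm_num) hl))

theorem le_two_mul_T (x : ℕ) : x ≤ 2 * T x := by
  unfold T
  split_ifs <;> omega

theorem T_le_two_mul (x : ℕ) : T x ≤ 2 * x := by
  unfold T
  split_ifs <;> omega

/-- The point of the first passage lies in the dyadic block below. -/
theorem FP.block {L n l i : ℕ} (hn : 2 ^ L ≤ n) (h : FP n (l + 1) i) (hl : l ≤ L) :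
    2 ^ l ≤ T^[i] n := by
  rcases Nat.eq_zero_or_pos i with h0 | h0
  · subst h0
    exact le_trans (Nat.pow_le_pow_right (by norm_num) hl) hn
  · obtain ⟨j, rfl⟩ := Nat.exists_eq_add_of_lt h0
    have h1 := h.2 j (by omega)
    rw [show 0 + j + 1 = j + 1 by ring, Function.iterate_succ_apply']
    have h2 := le_two_mul_T (T^[j] n)
    rw [pow_succ] at h1
    omega

open Classical in
/-- The numbers of the dyadic block `[2 ^ b, 2 ^ (b + 1))` that are still at least
`2 ^ (b - b / Q)` after `b` steps. -/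
noncomputable def Bad (Q b : ℕ) : Finset ℕ :=
  (Ico (2 ^ b) (2 ^ (b + 1))).filter fun m => 2 ^ (b - b / Q) ≤ T^[b] m

theorem mem_Bad {Q b m : ℕ} : m ∈ Bad Q b ↔
    (2 ^ b ≤ m ∧ m < 2 ^ (b + 1)) ∧ 2 ^ (b - b / Q) ≤ T^[b] m := by
  unfold Bad
  rw [mem_filter, mem_Ico]

/-- From each first passage below a power of two above `2 ^ l` the trajectory descends at the usual
rate. -/
def Good (Q L n l : ℕ) : Prop :=
  ∀ b i, l ≤ b → b ≤ L → FP n (b + 1) i → T^[i] n ∉ Bad Q b

theorem Good.mono {Q L n l l' : ℕ} (h : Good Q L n l) (hl : l ≤ l') : Good Q L n l' :=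
  fun b i h1 h2 h3 => h b i (hl.trans h1) h2 h3

theorem Good.drop {Q L n l b i : ℕ} (hn : 2 ^ L ≤ n) (h : Good Q L n l) (h1 : l ≤ b) (h2 : b ≤ L)
    (h3 : FP n (b + 1) i) : T^[i + b] n < 2 ^ (b - b / Q) := by
  by_contra hcon
  push Not at hcon
  apply h b i h1 h2 h3
  rw [mem_Bad]
  refine ⟨⟨h3.block hn h2, h3.1⟩, ?_⟩
  rw [← Function.iterate_add_apply, add_comm]
  exact hcon

/-- Existence of the first passages. -/
theorem Good.exists_FP {Q L n : ℕ} (hn : 2 ^ L ≤ n) (hn' : n < 2 ^ (L + 1)) (d : ℕ) :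
    ∀ l, l + d = L + 1 → Good Q L n l → ∃ i, FP n l i ∧ Sg i n ≤ sig l := by
  induction d with
  | zero =>
    intro l hl _
    have : l = L + 1 := by omega
    subst this
    exact ⟨0, ⟨hn', fun j hj => absurd hj (by omega)⟩, by rw [Sg_zero]; exact sig_nonneg _⟩
  | succ d ih =>
    intro l hl hG
    obtain ⟨i', h1, h2⟩ := ih (l + 1) (by omega) (hG.mono (by omega))
    have h3 := hG.drop hn le_rfl (by omega) h1
    have h4 : T^[i' + l] n < 2 ^ l :=
      lt_of_lt_of_le h3 (Nat.pow_le_pow_right (by norm_num) (Nat.sub_le _ _))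
    obtain ⟨i, hi, hFP⟩ := FP_of_lt h4
    have hii : i' ≤ i := hFP.mono h1 (Nat.le_succ l)
    refine ⟨i, hFP, ?_⟩
    obtain ⟨e, rfl⟩ := Nat.exists_eq_add_of_le hii
    have hel : e ≤ l := by omega
    have h5 : ∀ f, f ≤ e → Sg (i' + f) n ≤ Sg i' n + f / (3 * 2 ^ l) := by
      intro f
      induction f with
      | zero => intro _; simp
      | succ f ihf =>
        intro hf
        rw [← add_assoc, Sg_succ]
        have h6 := ihf (by omega)
        have h7 : 2 ^ l ≤ T^[i' + f] n := hFP.2 _ (by omega)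
        have h8 : (2 : ℝ) ^ l ≤ T^[i' + f] n := by exact_mod_cast h7
        have h9 : 1 / (3 * (T^[i' + f] n : ℝ)) ≤ 1 / (3 * 2 ^ l) := by
          apply one_div_le_one_div_of_le (by positivity)
          linarith
        have h10 : ((f + 1 : ℕ) : ℝ) / (3 * 2 ^ l) = f / (3 * 2 ^ l) + 1 / (3 * 2 ^ l) := by
          push_cast; ring
        rw [h10]
        linarith
    have h6 := h5 e le_rfl
    have h7 : (e : ℝ) / (3 * 2 ^ l) ≤ l / (3 * 2 ^ l) := by
      have : (e : ℝ) ≤ l := by exact_mod_cast hel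
      gcongr
    have h8 := sig_rec l
    linarith

theorem Good.FP_sig {Q L n l i : ℕ} (hn : 2 ^ L ≤ n) (hn' : n < 2 ^ (L + 1)) (hl : l ≤ L + 1)
    (hG : Good Q L n l) (h : FP n l i) : Sg i n ≤ sig l := by
  obtain ⟨i', h1, h2⟩ := hG.exists_FP hn hn' (L + 1 - l) l (by omega)
  rw [h.unique h1]; exact h2

/-- The time of the first passages. -/
theorem Good.time {Q L n : ℕ} (hQ : 0 < Q) (hn : 2 ^ L ≤ n) (hn' : n < 2 ^ (L + 1)) (d : ℕ) :
    ∀ l, l ≤ L → L - l = d → Good Q L n l → ∀ i, FP n l i → i ≤ L + (Q + 1) * (L - l) := by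
  induction d using Nat.strong_induction_on with
  | _ d ih =>
    intro l hl hd hG i hi
    have hFL : FP n (L + 1) 0 := ⟨hn', fun j hj => absurd hj (by omega)⟩
    obtain ⟨t, ht⟩ : ∃ t, t = l / Q := ⟨_, rfl⟩
    have hQt : t * Q ≤ l := by rw [ht]; exact Nat.div_mul_le_self l Q
    have hlt : l < (t + 1) * Q := by
      have := Nat.lt_div_mul_add (a := l) hQ
      rw [← ht] at this
      nlinarith
    rcases Nat.lt_or_ge (l + t) L with hb | hb
    · -- intermediate level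
      obtain ⟨b, hbdef⟩ : ∃ b, b = l + t := ⟨_, rfl⟩
      have h1 : b - b / Q ≤ l := by
        have h0 : t ≤ b / Q := by
          rw [Nat.le_div_iff_mul_le hQ]
          omega
        generalize b / Q = v at h0
        omega
      obtain ⟨i', h2, _⟩ := (hG.mono (show l ≤ b + 1 by omega)).exists_FP hn hn' (L - b) (b + 1)
        (by omega)
      have h3 := ih (L - (b + 1)) (by omega) (b + 1) (by omega) rfl (hG.mono (by omega)) i' h2
      have h4 := hG.drop hn (show l ≤ b by omega) (by omega) h2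
      have h5 : T^[i' + b] n < 2 ^ l := lt_of_lt_of_le h4 (Nat.pow_le_pow_right (by norm_num) h1)
      have h6 := hi.le_of_lt h5
      have h7 : (Q + 1) * (L - l) = (Q + 1) * (L - (b + 1)) + (Q + 1) * (t + 1) := by
        rw [← mul_add]
        congr 1
        omega
      have h8 : b ≤ (Q + 1) * (t + 1) := by
        rw [hbdef]
        nlinarith
      generalize (Q + 1) * (L - (b + 1)) = u1 at h3 h7
      generalize (Q + 1) * (t + 1) = u2 at h7 h8
      generalize (Q + 1) * (L - l) = u3 at h7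
      omega
    · have h1 : L - L / Q ≤ l := by
        have h2 : L - l ≤ L / Q := by
          rw [Nat.le_div_iff_mul_le hQ]
          have h3 : L - l ≤ t := by omega
          have h4 : (L - l) * Q ≤ t * Q := Nat.mul_le_mul_right _ h3
          omega
        generalize L / Q = v at h2
        omega
      have h4 := hG.drop hn hl le_rfl hFL
      rw [zero_add] at h4
      have h5 : T^[L] n < 2 ^ l := lt_of_lt_of_le h4 (Nat.pow_le_pow_right (by norm_num) h1)
      have h6 := hi.le_of_lt h5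
      exact h6.trans (Nat.le_add_right _ _)

theorem Good.time_le {Q L n l i : ℕ} (hQ : 0 < Q) (hn : 2 ^ L ≤ n) (hn' : n < 2 ^ (L + 1))
    (hl : l ≤ L + 1) (hG : Good Q L n l) (h : FP n l i) : i ≤ (Q + 2) * L := by
  rcases Nat.lt_or_ge L l with h1 | h1
  · have : l = L + 1 := by omega
    subst this
    have : i ≤ 0 := h.le_of_lt (j := 0) hn'
    omega
  · have h2 := Good.time hQ hn hn' (L - l) l h1 rfl hG i h
    have h3 : (Q + 1) * (L - l) ≤ (Q + 1) * L := Nat.mul_le_mul_left _ (Nat.sub_le _ _)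
    have h4 : (Q + 2) * L = L + (Q + 1) * L := by ring
    omega

theorem sum_W_half (b : ℕ) :
    ∑ m ∈ Ico (2 ^ b) (2 ^ (b + 1)), (W b m) ^ (1 / 2 : ℝ) = Mh ^ b := by
  have h1 := moment (1 / 2) b
  rw [sum_Ico_eq_sum_range]
  have h2 : 2 ^ (b + 1) - 2 ^ b = 2 ^ b := by rw [pow_succ]; omega
  rw [h2]
  rw [H89.Mh, ← h1]
  refine sum_congr rfl fun r _ => ?_
  rw [W_shift]

/-- **Few numbers do not descend.** -/
theorem card_Bad_le {Q : ℕ} (hQ : 0 < Q) (b : ℕ) :
    ((Bad Q b).card : ℝ) ≤ 2 * ((2 : ℝ) ^ (1 / (2 * Q) : ℝ) * Mh) ^ b := by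
  have hQr : (0 : ℝ) < Q := by exact_mod_cast hQ
  have h1 : ∀ m ∈ Bad Q b, (1 : ℝ) ≤ 2 * ((2 : ℝ) ^ (1 / (2 * Q) : ℝ)) ^ b *
      (W b m) ^ (1 / 2 : ℝ) := by
    intro m hm
    rw [mem_Bad] at hm
    obtain ⟨⟨h2, h3⟩, h4⟩ := hm
    have h5 := le_W_mul b m
    have hW := W_pos b m
    have h6 : (m : ℝ) ≤ 3 * 2 ^ b := by
      have : (m : ℝ) < 2 ^ (b + 1) := by exact_mod_cast h3
      rw [pow_succ] at this
      have h0 : (0 : ℝ) < 2 ^ b := by positivity
      linarith
    have h7 : (2 : ℝ) ^ (b - b / Q) ≤ W b m * (3 * 2 ^ b) := by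
      have h8 : (2 : ℝ) ^ (b - b / Q) ≤ T^[b] m := by exact_mod_cast h4
      have h9 : W b m * (m : ℝ) ≤ W b m * (3 * 2 ^ b) :=
        mul_le_mul_of_nonneg_left h6 hW.le
      linarith
    have h8 : (1 : ℝ) ≤ 3 * 2 ^ (b / Q) * W b m := by
      have h9 : (2 : ℝ) ^ b = 2 ^ (b - b / Q) * 2 ^ (b / Q) := by
        rw [← pow_add]
        congr 1
        have := Nat.div_le_self b Q
        omega
      rw [h9] at h7
      have h10 : (0 : ℝ) < 2 ^ (b - b / Q) := by positivity
      have h11 : (2 : ℝ) ^ (b - b / Q) * 1 ≤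
          2 ^ (b - b / Q) * (3 * 2 ^ (b / Q) * W b m) := by
        calc (2 : ℝ) ^ (b - b / Q) * 1 = 2 ^ (b - b / Q) := mul_one _
          _ ≤ _ := h7
          _ = _ := by ring
      exact le_of_mul_le_mul_left h11 h10
    have h9 : (1 : ℝ) ≤ (4 * 2 ^ (b / Q) * W b m) ^ (1 / 2 : ℝ) := by
      apply Real.one_le_rpow _ (by norm_num)
      have : 0 ≤ 2 ^ (b / Q) * W b m := by positivity
      linarith
    refine h9.trans ?_
    rw [Real.mul_rpow (by positivity) hW.le, Real.mul_rpow (by norm_num) (by positivity)]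
    have h10 : (4 : ℝ) ^ (1 / 2 : ℝ) = 2 := by
      rw [show (4 : ℝ) = 2 ^ (2 : ℝ) by norm_num, ← Real.rpow_mul (by norm_num)]
      norm_num
    have h11 : ((2 : ℝ) ^ (b / Q)) ^ (1 / 2 : ℝ) ≤ ((2 : ℝ) ^ (1 / (2 * Q) : ℝ)) ^ b := by
      rw [← Real.rpow_natCast 2 (b / Q), ← Real.rpow_mul (by norm_num),
        ← Real.rpow_natCast (_ : ℝ) b, ← Real.rpow_mul (by norm_num)]
      apply Real.rpow_le_rpow_of_exponent_le (by norm_num)
      have h12 : ((b / Q : ℕ) : ℝ) ≤ (b : ℝ) / Q := Nat.cast_div_le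
      calc ((b / Q : ℕ) : ℝ) * (1 / 2) ≤ (b : ℝ) / Q * (1 / 2) := by
            apply mul_le_mul_of_nonneg_right h12 (by norm_num)
        _ = 1 / (2 * Q) * b := by field_simp
    rw [h10]
    have h12 : 0 ≤ (W b m) ^ (1 / 2 : ℝ) := by positivity
    have h13 := mul_le_mul_of_nonneg_right h11 h12
    nlinarith
  calc ((Bad Q b).card : ℝ) = ∑ m ∈ Bad Q b, (1 : ℝ) := by simp
    _ ≤ ∑ m ∈ Bad Q b, 2 * ((2 : ℝ) ^ (1 / (2 * Q) : ℝ)) ^ b * (W b m) ^ (1 / 2 : ℝ) :=
        sum_le_sum h1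
    _ ≤ ∑ m ∈ Ico (2 ^ b) (2 ^ (b + 1)),
          2 * ((2 : ℝ) ^ (1 / (2 * Q) : ℝ)) ^ b * (W b m) ^ (1 / 2 : ℝ) := by
        refine sum_le_sum_of_subset_of_nonneg ?_ ?_
        · unfold Bad; exact filter_subset _ _
        · intro m _ _
          have := W_pos b m
          positivity
    _ = _ := by
        rw [← mul_sum, sum_W_half, mul_pow]
        ring

end Pool.Agent.Lib.MP_0a5adf_nt.H32
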