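import Pool.Agent.Lib.MP_0a5adf_nt.H89.Late

/-!
Port of the library `H89` (helper25, helper89) to the 3x-1 map: the first `L` steps.
-/

set_option autoImplicit false

namespace Pool.Agent.Lib.MP_0a5adf_nt.H32

open Finset

/-- The accelerated 3x-1 map: `n / 2` for even `n` and `(3 n - 1) / 2` for odd `n`. -/
def T (n : ℕ) : ℕ := if n % 2 = 0 then n / 2 else (3 * n - 1) / 2

/-- Number of odd terms among the first `k` terms of the trajectory of `n`. -/
def o (k n : ℕ) : ℕ := ∑ i ∈ range k, (T^[i] n) % 2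

lemma T_add_even (x b : ℕ) (h : x % 2 = 0) : T (x + 2 * b) = T x + b := by
  unfold T
  rw [if_pos h, if_pos (by omega)]
  omega

lemma T_add_odd (x b : ℕ) (h : x % 2 = 1) : T (x + 2 * b) = T x + 3 * b := by
  unfold T
  rw [if_neg (by omega), if_neg (by omega)]
  omega

lemma o_succ (k n : ℕ) : o (k + 1) n = o k n + (T^[k] n) % 2 := by
  unfold o
  rw [sum_range_succ]

lemma shift (k : ℕ) : ∀ n a : ℕ, T^[k] (n + 2 ^ k * a) = T^[k] n + 3 ^ (o k n) * a ∧
    o k (n + 2 ^ k * a) = o k n := by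
  induction k with
  | zero => intro n a; simp [o]
  | succ k ih =>
    intro n a
    have h := ih n (2 * a)
    have e : n + 2 ^ (k + 1) * a = n + 2 ^ k * (2 * a) := by ring
    rw [e]
    have hpar : (T^[k] (n + 2 ^ k * (2 * a))) % 2 = (T^[k] n) % 2 := by
      rw [h.1, show 3 ^ o k n * (2 * a) = 2 * (3 ^ o k n * a) by ring]
      omega
    have ho : o (k + 1) (n + 2 ^ k * (2 * a)) = o (k + 1) n := by
      rw [o_succ, o_succ, h.2, hpar]
    refine ⟨?_, ho⟩
    rw [Function.iterate_succ_apply', Function.iterate_succ_apply', h.1,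
      show 3 ^ o k n * (2 * a) = 2 * (3 ^ o k n * a) by ring]
    rcases Nat.mod_two_eq_zero_or_one (T^[k] n) with h0 | h1
    · rw [T_add_even _ _ h0, o_succ, h0, Nat.add_zero]
    · rw [T_add_odd _ _ h1, o_succ, h1, pow_succ]
      ring

/-- The multiplicative weight of the first `k` steps. -/
noncomputable def W (k n : ℕ) : ℝ := (3 : ℝ) ^ (o k n) / 2 ^ k

lemma W_pos (k n : ℕ) : 0 < W k n := by unfold W; positivity

lemma W_zero (n : ℕ) : W 0 n = 1 := by simp [W, o]

lemma W_shift (k n : ℕ) : W k (2 ^ k + n) = W k n := by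
  have := (shift k n 1).2
  rw [mul_one, add_comm] at this
  simp [W, this]

lemma W_shift' (j k n : ℕ) (h : j ≤ k) : W j (2 ^ k + n) = W j n := by
  obtain ⟨d, rfl⟩ := Nat.exists_eq_add_of_le h
  have := (shift j n (2 ^ d)).2
  rw [← pow_add, add_comm] at this
  simp [W, this]

lemma W_succ_even (k n : ℕ) (h : (T^[k] n) % 2 = 0) : W (k + 1) n = W k n * (1 / 2) := by
  unfold W
  rw [o_succ, h, add_zero, pow_succ 2 k]
  field_simp

lemma W_succ_odd (k n : ℕ) (h : (T^[k] n) % 2 = 1) : W (k + 1) n = W k n * (3 / 2) := by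
  unfold W
  rw [o_succ, h, pow_succ 2 k, pow_succ 3 (o k n)]
  field_simp

lemma parity_flip (k n : ℕ) : (T^[k] (2 ^ k + n)) % 2 = 1 - (T^[k] n) % 2 := by
  have h := (shift k n 1).1
  rw [mul_one, mul_one, add_comm n] at h
  have h3 : (3 ^ o k n) % 2 = 1 := by rw [Nat.pow_mod]; simp
  rw [h]
  omega

/-- The two lifts of a residue class modulo `2 ^ k` take one even and one odd step. -/
lemma W_pair (k n : ℕ) (F : ℝ → ℝ) :
    F (W (k + 1) n) + F (W (k + 1) (2 ^ k + n)) = F (W k n * (3 / 2)) + F (W k n * (1 / 2)) := by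
  have hf := parity_flip k n
  rcases Nat.mod_two_eq_zero_or_one (T^[k] n) with h0 | h1
  · rw [W_succ_even k n h0, W_succ_odd k (2 ^ k + n) (by omega), W_shift]
    ring
  · rw [W_succ_odd k n h1, W_succ_even k (2 ^ k + n) (by omega), W_shift]

lemma W_succ_le (k n : ℕ) : W (k + 1) n ≤ W k n * (3 / 2) := by
  have := W_pos k n
  rcases Nat.mod_two_eq_zero_or_one (T^[k] n) with h0 | h1
  · rw [W_succ_even k n h0]; linarith
  · rw [W_succ_odd k n h1]

lemma sum_split (k : ℕ) (f : ℕ → ℝ) :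
    ∑ n ∈ range (2 ^ (k + 1)), f n = ∑ n ∈ range (2 ^ k), (f n + f (2 ^ k + n)) := by
  rw [pow_succ, mul_two, Finset.sum_range_add, ← Finset.sum_add_distrib]

/-- Moment identity. -/
lemma moment (s : ℝ) (k : ℕ) :
    ∑ n ∈ range (2 ^ k), (W k n) ^ s = ((3 / 2 : ℝ) ^ s + (1 / 2 : ℝ) ^ s) ^ k := by
  induction k with
  | zero => simp [W_zero]
  | succ k ih =>
    rw [sum_split]
    have : ∀ n ∈ range (2 ^ k), (W (k + 1) n) ^ s + (W (k + 1) (2 ^ k + n)) ^ s
        = (W k n) ^ s * ((3 / 2 : ℝ) ^ s + (1 / 2 : ℝ) ^ s) := by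
      intro n _
      rw [W_pair k n (fun x => x ^ s), Real.mul_rpow (W_pos k n).le (by norm_num),
        Real.mul_rpow (W_pos k n).le (by norm_num)]
      ring
    rw [Finset.sum_congr rfl this, ← Finset.sum_mul, ih, pow_succ]

lemma total (k : ℕ) : ∑ n ∈ range (2 ^ k), W k n = 2 ^ k := by
  have := moment 1 k
  simp only [Real.rpow_one] at this
  rw [this]; norm_num

/-- `n` has reached level `μ` by time `k`. -/
def Hit (μ : ℝ) (k n : ℕ) : Prop := ∃ j ≤ k, μ ≤ W j n

lemma Hit_shift (μ : ℝ) (k n : ℕ) : Hit μ k (2 ^ k + n) ↔ Hit μ k n := by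
  unfold Hit
  constructor
  · rintro ⟨j, hj, h⟩; exact ⟨j, hj, by rwa [W_shift' j k n hj] at h⟩
  · rintro ⟨j, hj, h⟩; exact ⟨j, hj, by rwa [W_shift' j k n hj]⟩

lemma Hit_succ (μ : ℝ) (k n : ℕ) : Hit μ (k + 1) n ↔ Hit μ k n ∨ μ ≤ W (k + 1) n := by
  unfold Hit
  constructor
  · rintro ⟨j, hj, h⟩
    rcases Nat.lt_or_ge k j with h1 | h1
    · have : j = k + 1 := by omega
      subst this; exact Or.inr h
    · exact Or.inl ⟨j, h1, h⟩
  · rintro (⟨j, hj, h⟩ | h)
    · exact ⟨j, by omega, h⟩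
    · exact ⟨k + 1, le_rfl, h⟩

open Classical in
lemma ville (μ : ℝ) (k : ℕ) :
    μ * ∑ n ∈ range (2 ^ k), (if Hit μ k n then (1 : ℝ) else 0)
      ≤ ∑ n ∈ range (2 ^ k), if Hit μ k n then W k n else 0 := by
  induction k with
  | zero =>
    simp only [pow_zero, range_one, sum_singleton, W_zero]
    split_ifs with h
    · obtain ⟨j, hj, h⟩ := h
      have : j = 0 := by omega
      subst this
      rw [W_zero] at h; linarith
    · simp
  | succ k ih =>
    rw [sum_split, sum_split]
    have key : ∀ n ∈ range (2 ^ k),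
        2 * ((if Hit μ k n then W k n else 0) - μ * (if Hit μ k n then (1 : ℝ) else 0)) ≤
        ((if Hit μ (k + 1) n then W (k + 1) n else 0)
          + (if Hit μ (k + 1) (2 ^ k + n) then W (k + 1) (2 ^ k + n) else 0))
        - μ * ((if Hit μ (k + 1) n then (1 : ℝ) else 0)
          + (if Hit μ (k + 1) (2 ^ k + n) then (1 : ℝ) else 0)) := by
      intro n _
      by_cases hk : Hit μ k n
      · have h1 : Hit μ (k + 1) n := (Hit_succ μ k n).2 (Or.inl hk)
        have h2 : Hit μ (k + 1) (2 ^ k + n) :=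
          (Hit_succ μ k _).2 (Or.inl ((Hit_shift μ k n).2 hk))
        rw [if_pos h1, if_pos h2, if_pos hk, if_pos h1, if_pos h2, if_pos hk,
          W_pair k n (fun x => x)]
        linarith
      · have hk2 : ¬ Hit μ k (2 ^ k + n) := fun h => hk ((Hit_shift μ k n).1 h)
        have b1 : Hit μ (k + 1) n → μ ≤ W (k + 1) n := fun h =>
          ((Hit_succ μ k n).1 h).resolve_left hk
        have b2 : Hit μ (k + 1) (2 ^ k + n) → μ ≤ W (k + 1) (2 ^ k + n) := fun h =>
          ((Hit_succ μ k _).1 h).resolve_left hk2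
        rw [if_neg hk, if_neg hk]
        split_ifs with h1 h2 h2
        · have := b1 h1; have := b2 h2; linarith
        · have := b1 h1; linarith
        · have := b2 h2; linarith
        · simp
    have h2 := Finset.sum_le_sum key
    rw [Finset.sum_sub_distrib, ← Finset.mul_sum, ← Finset.mul_sum, Finset.sum_sub_distrib,
      ← Finset.mul_sum] at h2
    linarith


/-- The multiplicative weight dominates the trajectory values. -/
lemma le_W_mul (k n : ℕ) : (T^[k] n : ℝ) ≤ W k n * n := by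
  induction k with
  | zero => simp [W_zero]
  | succ k ih =>
    rw [Function.iterate_succ_apply']
    rcases Nat.mod_two_eq_zero_or_one (T^[k] n) with h0 | h1
    · rw [W_succ_even k n h0]
      have : (2 : ℝ) * (T (T^[k] n) : ℝ) = (T^[k] n : ℝ) := by
        have : 2 * T (T^[k] n) = T^[k] n := by
          generalize T^[k] n = x at *
          unfold T; rw [if_pos h0]; omega
        exact_mod_cast this
      linarith
    · rw [W_succ_odd k n h1]
      have : (2 : ℝ) * (T (T^[k] n) : ℝ) + 1 = 3 * (T^[k] n : ℝ) := by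
        have : 2 * T (T^[k] n) + 1 = 3 * T^[k] n := by
          generalize T^[k] n = x at *
          unfold T; rw [if_neg (by omega)]; omega
        exact_mod_cast this
      linarith

/-- The numbers in the dyadic block `[2 ^ L, 2 ^ (L + 1))` whose trajectory reaches the level
`lam * n` within the first `L` steps. -/
def Reach (L : ℕ) (lam : ℝ) : Set ℕ :=
  {n : ℕ | 2 ^ L ≤ n ∧ n < 2 ^ (L + 1) ∧ ∃ k ≤ L, lam * n ≤ (T^[k] n : ℝ)}

open Classical in
lemma sum_ind (μ : ℝ) (L : ℕ) :
    ∑ n ∈ range (2 ^ L), (if Hit μ L n then (1 : ℝ) else 0)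
      = (((range (2 ^ L)).filter (fun n => Hit μ L n)).card : ℝ) := by
  rw [Finset.sum_ite]; simp

lemma Reach_finite (L : ℕ) (lam : ℝ) : (Reach L lam).Finite :=
  (Set.finite_Iio (2 ^ (L + 1))).subset (fun n hn => hn.2.1)

open Classical in
lemma reach_le_hit (L : ℕ) (lam : ℝ) :
    (Reach L lam).ncard ≤ ((range (2 ^ L)).filter (fun n => Hit lam L n)).card := by
  have hinj : Function.Injective (fun r : ℕ => 2 ^ L + r) := fun a b h => by
    simpa using h
  rw [← Finset.card_image_of_injective _ hinj, ← Set.ncard_coe_finset]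
  apply Set.ncard_le_ncard _ (Finset.finite_toSet _)
  rintro n ⟨h1, h2, j, hj, hW⟩
  simp only [Finset.coe_image, Finset.coe_filter, Finset.mem_range, Set.mem_image,
    Set.mem_ofPred_eq]
  obtain ⟨r, rfl⟩ := Nat.exists_eq_add_of_le h1
  refine ⟨r, ⟨by rw [pow_succ] at h2; omega, j, hj, ?_⟩, rfl⟩
  rw [← W_shift' j L r hj]
  have h3 := le_W_mul j (2 ^ L + r)
  have h4 : (2 : ℝ) ^ L ≤ ((2 ^ L + r : ℕ) : ℝ) := by
    push_cast
    have : (0 : ℝ) ≤ r := Nat.cast_nonneg r
    linarith
  have hpos : (0 : ℝ) < ((2 ^ L + r : ℕ) : ℝ) := lt_of_lt_of_le (by positivity) h4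
  exact le_of_mul_le_mul_right (hW.trans h3) hpos

/-- Upper bound for the number of large excursions. -/
lemma reach_upper (L : ℕ) (lam : ℝ) (hlam : 0 < lam) :
    ((Reach L lam).ncard : ℝ) ≤ 2 * 2 ^ L / lam := by
  classical
  have h1 := ville lam L
  rw [sum_ind] at h1
  have h2 : (∑ n ∈ range (2 ^ L), if Hit lam L n then W L n else 0) ≤ 2 ^ L := by
    rw [← total L]
    apply Finset.sum_le_sum
    intro n _
    have := W_pos L n
    split_ifs <;> linarith
  have h3 : ((Reach L lam).ncard : ℝ)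
      ≤ (((range (2 ^ L)).filter (fun n => Hit lam L n)).card : ℝ) := by
    exact_mod_cast reach_le_hit L lam
  rw [le_div_iff₀ hlam]
  have h4 : (0 : ℝ) < 2 ^ L := by positivity
  nlinarith

end Pool.Agent.Lib.MP_0a5adf_nt.H32
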